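import Mathlib

/-!
Definitions for MP_e6972d_co (pandichotomous graphs in the plane).
-/

namespace Pool.Agent.H95.Pan

/-- The Euclidean plane. -/
abbrev Plane := EuclideanSpace ℝ (Fin 2)

/-- `(p, δ)` is a geometric realization in the plane of the dichotomous ordinal graph
`(G, S)`, where `S` is the set of short edges (the other edges are long): the points `p v` are
distinct, `δ > 0`, and an edge `uv` is short exactly when `‖p u - p v‖ ≤ δ`. -/
def IsRealization {V : Type*} (G : SimpleGraph V) (S : Set (Sym2 V)) (p : V → Plane) (δ : ℝ) :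
    Prop :=
  0 < δ ∧ Function.Injective p ∧ ∀ u v : V, G.Adj u v → (s(u, v) ∈ S ↔ dist (p u) (p v) ≤ δ)

/-- `G` is pandichotomous in the plane: for every partition of the edges into short and long
edges there is a geometric realization. -/
def Pandichotomous {V : Type*} (G : SimpleGraph V) : Prop :=
  ∀ S : Set (Sym2 V), S ⊆ G.edgeSet → ∃ (p : V → Plane) (δ : ℝ), IsRealization G S p δ

/-- `G` has pathwidth at most `k`: there is a path decomposition (a finite sequence of bags,
every vertex and every edge in some bag, the bags containing a given vertex consecutive) whose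
bags have at most `k + 1` elements. -/
def PathwidthLE {V : Type*} (G : SimpleGraph V) (k : ℕ) : Prop :=
  ∃ (m : ℕ) (X : Fin m → Finset V),
    (∀ v, ∃ i, v ∈ X i) ∧
    (∀ u v, G.Adj u v → ∃ i, u ∈ X i ∧ v ∈ X i) ∧
    (∀ i j l, i ≤ j → j ≤ l → ∀ v, v ∈ X i → v ∈ X l → v ∈ X j) ∧
    ∀ i, (X i).card ≤ k + 1

/-- A construction of a graph on `0, …, n - 1` vertex by vertex.  Vertex `i` comes with two
*ports*, sets of at most three vertices: `A i`, which consists of earlier vertices and contains
all earlier neighbours of `i`, and `B i ⊆ A i ∪ {i}`.  The port `A i` is empty or contained in a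
port (`A j` or `B j`) of some earlier vertex `j`. -/
structure PortOrder {n : ℕ} (G : SimpleGraph (Fin n)) where
  A : Fin n → Finset (Fin n)
  B : Fin n → Finset (Fin n)
  A_lt : ∀ i, ∀ j ∈ A i, j < i
  A_card : ∀ i, (A i).card ≤ 3
  adj_mem : ∀ i j, j < i → G.Adj i j → j ∈ A i
  B_sub : ∀ i, B i ⊆ insert i (A i)
  B_card : ∀ i, (B i).card ≤ 3
  port : ∀ i, A i = ∅ ∨ ∃ j, j < i ∧ (A i ⊆ A j ∨ A i ⊆ B j)

/-- A frame: three points of the plane with pairwise distances strictly between `19/20` and
`21/20`. -/
def Frame (f : Fin 3 → Plane) : Prop :=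
  ∀ i j, i ≠ j → 19 / 20 < dist (f i) (f j) ∧ dist (f i) (f j) < 21 / 20

end Pool.Agent.H95.Pan
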