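import Pool.Agent.H95.Pan.Defs
import Pool.Agent.H95.Pan.Geo

/-!
# PAN-IND: induction over the vertices of a graph with a port order
-/

namespace Pool.Agent.H95.Pan

open Finset



namespace INDx

variable {n : ℕ}

/-- the set `X` sits in a frame -/
def InFrame (p : Fin n → Plane) (X : Finset (Fin n)) : Prop :=
  ∃ (f : Fin 3 → Plane) (g : Fin n → Fin 3), Frame f ∧ Set.InjOn g X ∧ ∀ u ∈ X, p u = f (g u)

theorem InFrame.mono {p : Fin n → Plane} {X Y : Finset (Fin n)} (h : InFrame p X) (hY : Y ⊆ X) :
    InFrame p Y := by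
  obtain ⟨f, g, h1, h2, h3⟩ := h
  exact ⟨f, g, h1, h2.mono (Finset.coe_subset.2 hY), fun u hu => h3 u (hY hu)⟩

theorem InFrame.congr {p p' : Fin n → Plane} {X : Finset (Fin n)} (h : InFrame p X)
    (hp : ∀ u ∈ X, p' u = p u) : InFrame p' X := by
  obtain ⟨f, g, h1, h2, h3⟩ := h
  exact ⟨f, g, h1, h2, fun u hu => (hp u hu).trans (h3 u hu)⟩

/-- the first `m` vertices are placed -/
structure Inv (G : SimpleGraph (Fin n)) (P : PortOrder G) (S : Set (Sym2 (Fin n))) (m : ℕ)
    (p : Fin n → Plane) : Prop where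
  inj : ∀ i j : Fin n, i.val < m → j.val < m → p i = p j → i = j
  edge : ∀ i j : Fin n, i.val < m → j.val < m → G.Adj i j →
    (s(i, j) ∈ S ↔ dist (p i) (p j) ≤ 1)
  fA : ∀ i : Fin n, i.val < m → InFrame p (P.A i)
  fB : ∀ i : Fin n, i.val < m → InFrame p (P.B i)

theorem step {G : SimpleGraph (Fin n)} {P : PortOrder G} {S : Set (Sym2 (Fin n))} (i : Fin n)
    {p : Fin n → Plane} (h : Inv G P S i.val p) : ∃ p', Inv G P S (i.val + 1) p' := by
  classical
  -- the port of the new vertex
  have hA : InFrame p (P.A i) := by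
    rcases P.port i with h0 | ⟨j, hj, h1 | h1⟩
    · obtain ⟨f, hf⟩ := exists_frame
      refine ⟨f, fun _ => 0, hf, ?_, ?_⟩
      · rw [h0]
        simp
      · intro u hu
        rw [h0] at hu
        exact absurd hu (Finset.notMem_empty u)
    · exact (h.fA j hj).mono h1
    · exact (h.fB j hj).mono h1
  obtain ⟨f, g, hf, hg, hpf⟩ := hA
  have hBA : ∀ u ∈ P.B i, u ≠ i → u ∈ P.A i := by
    intro u hu hui
    exact (Finset.mem_insert.1 (P.B_sub i hu)).resolve_left hui
  obtain ⟨k, hk⟩ : ∃ k : Fin 3, i ∈ P.B i → ∀ u ∈ P.B i, u ≠ i → g u ≠ k := by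
    by_cases hi : i ∈ P.B i
    · have h1 : (((P.B i).erase i).image g).card < (Finset.univ : Finset (Fin 3)).card := by
        have h2 : (((P.B i).erase i).image g).card ≤ ((P.B i).erase i).card :=
          Finset.card_image_le
        have h3 := Finset.card_erase_of_mem hi
        have h4 := P.B_card i
        have h5 : 0 < (P.B i).card := Finset.card_pos.2 ⟨i, hi⟩
        rw [Finset.card_univ, Fintype.card_fin]
        omega
      obtain ⟨k, -, hk⟩ := Finset.exists_mem_notMem_of_card_lt_card h1
      refine ⟨k, fun _ u hu hui e => hk ?_⟩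
      exact Finset.mem_image.2 ⟨u, Finset.mem_erase.2 ⟨hui, hu⟩, e⟩
    · exact ⟨0, fun h => absurd h hi⟩
  obtain ⟨x, hx1, hx2, hx3⟩ := extend f hf k (fun j => ∃ u ∈ P.A i, g u = j ∧ s(u, i) ∈ S)
    (p '' {u | u < i}) ((Set.toFinite _).image p)
  have hp' : ∀ u : Fin n, u ≠ i → Function.update p i x u = p u := fun u hu =>
    Function.update_of_ne hu _ _
  have hpi : Function.update p i x i = x := Function.update_self _ _ _
  have hcase : ∀ u : Fin n, u.val < i.val + 1 → u = i ∨ (u < i ∧ u ≠ i) := by
    intro u hu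
    rcases eq_or_ne u i with h1 | h1
    · exact Or.inl h1
    · refine Or.inr ⟨?_, h1⟩
      have h2 : u.val ≠ i.val := fun e => h1 (Fin.ext e)
      show u.val < i.val
      omega
  have hnx : ∀ u : Fin n, u < i → p u ≠ x := fun u hu e => hx1 ⟨u, hu, e⟩
  -- the new edges
  have hE : ∀ u : Fin n, u < i → G.Adj u i → (s(u, i) ∈ S ↔ dist (p u) x ≤ 1) := by
    intro u hu hadj
    have huA : u ∈ P.A i := P.adj_mem i u hu hadj.symm
    rw [hpf u huA, ← hx2 (g u)]
    constructor
    · intro h1
      exact ⟨u, huA, rfl, h1⟩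
    · rintro ⟨w, hw, h1, h2⟩
      have h3 : w = u := hg (Finset.mem_coe.2 hw) (Finset.mem_coe.2 huA) h1
      rwa [h3] at h2
  -- the old ports
  have hAlt : ∀ j : Fin n, j ≤ i → ∀ u ∈ P.A j, u ≠ i := by
    intro j hj u hu
    exact ne_of_lt (lt_of_lt_of_le (P.A_lt j u hu) hj)
  have hBlt : ∀ j : Fin n, j < i → ∀ u ∈ P.B j, u ≠ i := by
    intro j hj u hu
    rcases Finset.mem_insert.1 (P.B_sub j hu) with h1 | h1
    · rw [h1]
      exact ne_of_lt hj
    · exact hAlt j hj.le u h1
  have hAi : InFrame (Function.update p i x) (P.A i) :=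
    ⟨f, g, hf, hg, fun u hu => (hp' u (hAlt i le_rfl u hu)).trans (hpf u hu)⟩
  refine ⟨Function.update p i x, ?_, ?_, ?_, ?_⟩
  · intro u w hu hw e
    rcases hcase u hu with rfl | ⟨h1, h2⟩
    · rcases hcase w hw with rfl | ⟨h3, h4⟩
      · rfl
      · rw [hpi, hp' w h4] at e
        exact absurd e.symm (hnx w h3)
    · rcases hcase w hw with rfl | ⟨h3, h4⟩
      · rw [hpi, hp' u h2] at e
        exact absurd e (hnx u h1)
      · rw [hp' u h2, hp' w h4] at e
        exact h.inj u w h1 h3 e
  · intro u w hu hw hadj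
    rcases hcase u hu with rfl | ⟨h1, h2⟩
    · rcases hcase w hw with rfl | ⟨h3, h4⟩
      · exact absurd hadj (G.loopless.irrefl _)
      · rw [hpi, hp' w h4, Sym2.eq_swap, dist_comm]
        exact hE w h3 hadj.symm
    · rcases hcase w hw with rfl | ⟨h3, h4⟩
      · rw [hpi, hp' u h2]
        exact hE u h1 hadj
      · rw [hp' u h2, hp' w h4]
        exact h.edge u w h1 h3 hadj
  · intro j hj
    rcases hcase j hj with rfl | ⟨h1, h2⟩
    · exact hAi
    · exact (h.fA j h1).congr fun u hu => hp' u (hAlt j h1.le u hu)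
  · intro j hj
    rcases hcase j hj with rfl | ⟨h1, h2⟩
    · by_cases hi : j ∈ P.B j
      · refine ⟨Function.update f k x, Function.update g j k, hx3, ?_, ?_⟩
        · intro u hu w hw e
          rw [Finset.mem_coe] at hu hw
          rcases eq_or_ne u j with h5 | h5
          · rcases eq_or_ne w j with h6 | h6
            · rw [h5, h6]
            · rw [h5, Function.update_self, Function.update_of_ne h6] at e
              exact absurd e.symm (hk hi w hw h6)
          · rcases eq_or_ne w j with h6 | h6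
            · rw [h6, Function.update_self, Function.update_of_ne h5] at e
              exact absurd e (hk hi u hu h5)
            · rw [Function.update_of_ne h5, Function.update_of_ne h6] at e
              exact hg (Finset.mem_coe.2 (hBA u hu h5)) (Finset.mem_coe.2 (hBA w hw h6)) e
        · intro u hu
          rcases eq_or_ne u j with h5 | h5
          · rw [h5, hpi, Function.update_self, Function.update_self]
          · rw [hp' u h5, Function.update_of_ne h5, Function.update_of_ne (hk hi u hu h5)]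
            exact hpf u (hBA u hu h5)
      · refine hAi.mono fun u hu => hBA u hu ?_
        rintro rfl
        exact hi hu
    · exact (h.fB j h1).congr fun u hu => hp' u (hBlt j h1 u hu)

theorem exists_inv (G : SimpleGraph (Fin n)) (P : PortOrder G) (S : Set (Sym2 (Fin n))) :
    ∀ m : ℕ, m ≤ n → ∃ p, Inv G P S m p := by
  intro m
  induction m with
  | zero =>
    intro _
    exact ⟨fun _ => 0, fun i j hi => absurd hi (Nat.not_lt_zero _),
      fun i j hi => absurd hi (Nat.not_lt_zero _), fun i hi => absurd hi (Nat.not_lt_zero _),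
      fun i hi => absurd hi (Nat.not_lt_zero _)⟩
  | succ m ih =>
    intro hm
    obtain ⟨p, hp⟩ := ih (by omega)
    exact step (⟨m, by omega⟩ : Fin n) hp

end INDx

/-- IND: the main induction. -/
theorem pandichotomous_of_portOrder {n : ℕ} (G : SimpleGraph (Fin n)) (P : PortOrder G) :
    Pandichotomous G := by
  intro S _
  obtain ⟨p, hp⟩ := INDx.exists_inv G P S n le_rfl
  exact ⟨p, 1, one_pos, fun i j e => hp.inj i j i.2 j.2 e,
    fun u v huv => hp.edge u v u.2 v.2 huv⟩

end Pool.Agent.H95.Pan
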