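import Pool.Agent.H95.Pan.Defs

set_option autoImplicit false

namespace Pool.Agent.H95.Pan

open Finset

/-- ISO. -/
theorem pandichotomous_of_equiv {V W : Type*} (G : SimpleGraph V) (H : SimpleGraph W)
    (e : V ≃ W) (he : ∀ u v, G.Adj u v → H.Adj (e u) (e v)) (h : Pandichotomous H) :
    Pandichotomous G := by
  intro S hS
  have hS' : (Sym2.map e) '' S ⊆ H.edgeSet := by
    rintro _ ⟨z, hz, rfl⟩
    have hz' := hS hz
    induction z using Sym2.ind with
    | _ u v =>
      rw [Sym2.map_mk]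
      rw [SimpleGraph.mem_edgeSet] at hz'
      exact he u v hz'
  obtain ⟨q, δ, h0, hinj, hq⟩ := h _ hS'
  refine ⟨fun v => q (e v), δ, h0, hinj.comp e.injective, ?_⟩
  intro u v huv
  have h1 := hq (e u) (e v) (he u v huv)
  rw [← h1]
  constructor
  · intro hs
    exact ⟨s(u, v), hs, by rw [Sym2.map_mk]⟩
  · rintro ⟨z, hz, hz2⟩
    have : z = s(u, v) := by
      apply Sym2.map.injective e.injective
      rw [hz2, Sym2.map_mk]
    rw [← this]; exact hz

/-- PW: a graph of pathwidth at most 3 has, after a relabelling, a port order. -/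
theorem portOrder_of_pathwidth {V : Type*} [Fintype V] (G : SimpleGraph V)
    (h : PathwidthLE G 3) :
    ∃ (n : ℕ) (H : SimpleGraph (Fin n)) (e : V ≃ Fin n),
      (∀ u v, G.Adj u v → H.Adj (e u) (e v)) ∧ Nonempty (PortOrder H) := by
  classical
  obtain ⟨m, X, hv, he, hc, hcard⟩ := h
  have hex : ∀ v, ∃ i, v ∈ X i ∧ ∀ j, v ∈ X j → i ≤ j := by
    intro v
    obtain ⟨i, hi⟩ := hv v
    obtain ⟨i0, h1, h2⟩ := Finset.exists_min_image (univ.filter (fun i => v ∈ X i)) id
      ⟨i, by simp [hi]⟩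
    refine ⟨i0, (Finset.mem_filter.mp h1).2, fun j hj => ?_⟩
    exact h2 j (Finset.mem_filter.mpr ⟨Finset.mem_univ _, hj⟩)
  choose l hl1 hl2 using hex
  let e0 : V ≃ Fin (Fintype.card V) := Fintype.equivFin V
  let sg : Equiv.Perm (Fin (Fintype.card V)) := Tuple.sort (fun i => l (e0.symm i))
  have hmono : Monotone ((fun i => l (e0.symm i)) ∘ sg) := Tuple.monotone_sort _
  let w : Fin (Fintype.card V) → V := fun i => e0.symm (sg i)
  have hwinj : Function.Injective w := e0.symm.injective.comp sg.injective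
  have hL : ∀ i j, i ≤ j → l (w i) ≤ l (w j) := fun i j hij => hmono hij
  let e : V ≃ Fin (Fintype.card V) := e0.trans sg.symm
  have hwe : ∀ u, w (e u) = u := fun u => by
    show e0.symm (sg (sg.symm (e0 u))) = u
    rw [Equiv.apply_symm_apply, Equiv.symm_apply_apply]
  let A : Fin (Fintype.card V) → Finset (Fin (Fintype.card V)) :=
    fun i => univ.filter fun j => j < i ∧ w j ∈ X (l (w i))
  have hA : ∀ i j, j ∈ A i ↔ j < i ∧ w j ∈ X (l (w i)) := by
    intro i j
    simp [A]
  have hA3 : ∀ i, (A i).card ≤ 3 := by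
    intro i
    have h1 : (insert i (A i)).image w ⊆ X (l (w i)) := by
      intro x hx
      obtain ⟨j, hj, rfl⟩ := Finset.mem_image.mp hx
      rcases Finset.mem_insert.mp hj with rfl | hj
      · exact hl1 _
      · exact ((hA i j).mp hj).2
    have h2 : (insert i (A i)).card ≤ 4 := by
      rw [← Finset.card_image_of_injective _ hwinj]
      exact (Finset.card_le_card h1).trans (hcard _)
    rw [Finset.card_insert_of_notMem (fun hi => lt_irrefl i ((hA i i).mp hi).1)] at h2
    omega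
  let B : Fin (Fintype.card V) → Finset (Fin (Fintype.card V)) :=
    fun i => if h : (i : ℕ) + 1 < Fintype.card V then A ⟨(i : ℕ) + 1, h⟩ else ∅
  have hB : ∀ (i : Fin (Fintype.card V)) (h : (i : ℕ) + 1 < Fintype.card V),
      B i = A ⟨(i : ℕ) + 1, h⟩ := fun i h => dif_pos h
  have hB0 : ∀ (i : Fin (Fintype.card V)), ¬ ((i : ℕ) + 1 < Fintype.card V) → B i = ∅ :=
    fun i h => dif_neg h
  refine ⟨Fintype.card V, G.comap w, e, ?_, ⟨⟨A, B, ?_, hA3, ?_, ?_, ?_, ?_⟩⟩⟩
  · intro u v huv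
    rw [SimpleGraph.comap_adj, hwe, hwe]
    exact huv
  · intro i j hj
    exact ((hA i j).mp hj).1
  · intro i j hji hadj
    rw [SimpleGraph.comap_adj] at hadj
    obtain ⟨t, ht1, ht2⟩ := he _ _ hadj
    refine (hA i j).mpr ⟨hji, ?_⟩
    exact hc _ _ _ (hL j i hji.le) (hl2 _ _ ht1) _ (hl1 _) ht2
  · intro i j hj
    by_cases hi : (i : ℕ) + 1 < Fintype.card V
    · rw [hB i hi] at hj
      obtain ⟨h1, h2⟩ := (hA _ _).mp hj
      have h3 : (j : ℕ) < (i : ℕ) + 1 := h1
      rcases Nat.lt_or_ge (j : ℕ) (i : ℕ) with h4 | h4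
      · refine Finset.mem_insert_of_mem ((hA i j).mpr ⟨h4, ?_⟩)
        refine hc _ _ _ (hL j i (le_of_lt h4)) (hL i ⟨(i : ℕ) + 1, hi⟩ ?_) _ (hl1 _) h2
        show (i : ℕ) ≤ (i : ℕ) + 1
        omega
      · have : j = i := Fin.ext (by omega)
        rw [this]; exact Finset.mem_insert_self _ _
    · rw [hB0 i hi] at hj
      exact absurd hj (Finset.notMem_empty j)
  · intro i
    by_cases hi : (i : ℕ) + 1 < Fintype.card V
    · rw [hB i hi]; exact hA3 _
    · rw [hB0 i hi]; simp
  · intro i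
    by_cases hi : (i : ℕ) = 0
    · left
      apply Finset.eq_empty_of_forall_notMem
      intro j hj
      have h1 : (j : ℕ) < (i : ℕ) := ((hA i j).mp hj).1
      omega
    · right
      have hlt : (i : ℕ) - 1 < Fintype.card V := by have := i.2; omega
      refine ⟨⟨(i : ℕ) - 1, hlt⟩, ?_, Or.inr ?_⟩
      · show (i : ℕ) - 1 < (i : ℕ)
        omega
      · have h1 : ((⟨(i : ℕ) - 1, hlt⟩ : Fin (Fintype.card V)) : ℕ) + 1 < Fintype.card V := by
          show (i : ℕ) - 1 + 1 < Fintype.card V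
          have := i.2; omega
        rw [hB _ h1]
        have h2 : (⟨((⟨(i : ℕ) - 1, hlt⟩ : Fin (Fintype.card V)) : ℕ) + 1, h1⟩ : Fin (Fintype.card V)) = i := by
          apply Fin.ext
          show (i : ℕ) - 1 + 1 = (i : ℕ)
          omega
        rw [h2]

end Pool.Agent.H95.Pan
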