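import Pool.Agent.H95.Pan.Ind
import Pool.Agent.H95.Pan.Pw

namespace Pool.Agent.H95.Pan

/-- `G` has a port order: it is isomorphic to a graph on `0, …, n - 1` with a port order. -/
def HasPortOrder {V : Type*} (G : SimpleGraph V) : Prop :=
  ∃ (n : ℕ) (H : SimpleGraph (Fin n)), Nonempty (G ≃g H) ∧ Nonempty (PortOrder H)

theorem pandichotomous_of_hasPortOrder {V : Type*} (G : SimpleGraph V) (h : HasPortOrder G) :
    Pandichotomous G := by
  obtain ⟨n, H, ⟨e⟩, ⟨P⟩⟩ := h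
  exact pandichotomous_of_equiv G H e.toEquiv (fun u v huv => e.map_adj_iff.2 huv)
    (pandichotomous_of_portOrder H P)

theorem hasPortOrder_of_pathwidth {V : Type*} [Fintype V] (G : SimpleGraph V)
    (h : PathwidthLE G 3) : HasPortOrder G := by
  obtain ⟨n, H, e, he, ⟨P⟩⟩ := portOrder_of_pathwidth G h
  refine ⟨n, G.map e.toEmbedding, ⟨SimpleGraph.Iso.map e G⟩, ⟨⟨P.A, P.B, P.A_lt, P.A_card, ?_,
    P.B_sub, P.B_card, P.port⟩⟩⟩
  intro i j hji hadj
  refine P.adj_mem i j hji ?_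
  rw [SimpleGraph.map_adj] at hadj
  obtain ⟨u, v, huv, rfl, rfl⟩ := hadj
  exact he u v huv

end Pool.Agent.H95.Pan
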